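import Mathlib
import Pool.Prelude.Def_F_afa771e7

set_option autoImplicit false
open Ne36ddc9e

namespace Pool.Agent.Helper51.Sid

/-- `F` is attained. -/
lemma exists_max (N : ℕ) : ∃ A : Finset ℕ, A ⊆ Finset.Icc 1 N ∧ IsSidon (A : Set ℕ) ∧ A.card = F N := by
  classical
  have hne : ((Finset.Icc 1 N).powerset.filter fun B : Finset ℕ => IsSidon (B : Set ℕ)).Nonempty := by
    refine ⟨∅, ?_⟩
    simp [IsSidon]
  obtain ⟨A, hA, hAe⟩ := Finset.exists_mem_eq_sup _ hne Finset.card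
  rw [Finset.mem_filter, Finset.mem_powerset] at hA
  refine ⟨A, hA.1, hA.2, ?_⟩
  unfold F Finset.maxSidonSubsetCard
  convert hAe.symm using 2

lemma card_le_F {N : ℕ} {A : Finset ℕ} (h1 : A ⊆ Finset.Icc 1 N) (h2 : IsSidon (A : Set ℕ)) : A.card ≤ F N := by
  classical
  unfold F Finset.maxSidonSubsetCard
  have : A ∈ ((Finset.Icc 1 N).powerset.filter fun B : Finset ℕ => IsSidon (B : Set ℕ)) := by
    rw [Finset.mem_filter, Finset.mem_powerset]
    exact ⟨h1, h2⟩
  convert Finset.le_sup (f := Finset.card) this using 2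

lemma sidon_mono {A B : Finset ℕ} (h : IsSidon (B : Set ℕ)) (hAB : A ⊆ B) : IsSidon (A : Set ℕ) :=
  fun _ h1 _ h2 _ h3 _ h4 => h _ (hAB h1) _ (hAB h2) _ (hAB h3) _ (hAB h4)

/-- Translation down. -/
lemma card_le_F_shift {N k : ℕ} {A : Finset ℕ} (h1 : A ⊆ Finset.Icc (k + 1) (N + k)) (h2 : IsSidon (A : Set ℕ)) :
    A.card ≤ F N := by
  classical
  have hinj : Set.InjOn (fun x => x - k) (A : Set ℕ) := by
    intro a ha b hb hab
    have := Finset.mem_Icc.mp (h1 ha)
    have := Finset.mem_Icc.mp (h1 hb)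
    simp only at hab
    omega
  rw [← Finset.card_image_of_injOn hinj]
  refine card_le_F ?_ ?_
  · intro y hy
    obtain ⟨x, hx, rfl⟩ := Finset.mem_image.mp hy
    have := Finset.mem_Icc.mp (h1 hx)
    rw [Finset.mem_Icc]
    omega
  · intro a ha b hb c hc d hd hsum
    simp only [Finset.coe_image, Set.mem_image, Finset.mem_coe] at ha hb hc hd
    obtain ⟨a', ha', rfl⟩ := ha
    obtain ⟨b', hb', rfl⟩ := hb
    obtain ⟨c', hc', rfl⟩ := hc
    obtain ⟨d', hd', rfl⟩ := hd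
    have h3 := Finset.mem_Icc.mp (h1 ha')
    have h4 := Finset.mem_Icc.mp (h1 hb')
    have h5 := Finset.mem_Icc.mp (h1 hc')
    have h6 := Finset.mem_Icc.mp (h1 hd')
    have := h2 a' ha' b' hb' c' hc' d' hd' (by omega)
    omega

/-- The signed difference is injective on the pairs of distinct elements of a Sidon set. -/
lemma diff_inj {A : Finset ℕ} (h : IsSidon (A : Set ℕ)) :
    Set.InjOn (fun p : ℕ × ℕ => (p.1 : ℤ) - p.2) (A.offDiag : Set (ℕ × ℕ)) := by
  rintro ⟨a, b⟩ hp ⟨c, d⟩ hq heq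
  simp only [Finset.coe_offDiag, Set.mem_offDiag, Finset.mem_coe] at hp hq
  simp only at heq
  have h1 := h a hp.1 c hq.1 d hq.2.1 b hp.2.1 (by omega)
  rcases h1 with h1 | h1
  · rw [Prod.mk.injEq]; exact ⟨h1.1, h1.2.symm⟩
  · exact absurd h1.1 hp.2.2

/-- Windows of length `u` for a set in an interval of length `k`. -/
lemma window {Z : Finset ℕ} {a k u : ℕ} (hZ : Z ⊆ Finset.Icc (a + 1) (a + k)) (hu : 1 ≤ u) :
    (u * Z.card) ^ 2 ≤ (k + u - 1) * (u * Z.card + ∑ p ∈ Z.offDiag, (u - ((p.1 : ℤ) - p.2).natAbs)) := by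
  classical
  let R := Finset.range (k + u - 1)
  let c : ℕ → ℕ := fun i => (Z.filter (fun z => z ≤ a + i + 1 ∧ a + i + 1 < z + u)).card
  have hsum : ∑ i ∈ R, c i = u * Z.card := by
    simp only [c, Finset.card_eq_sum_ones, Finset.sum_filter]
    rw [Finset.sum_comm]
    have : ∀ z ∈ Z, (∑ i ∈ R, if z ≤ a + i + 1 ∧ a + i + 1 < z + u then 1 else 0) = u := by
      intro z hz
      have hz' := Finset.mem_Icc.mp (hZ hz)
      rw [← Finset.sum_filter, ← Finset.card_eq_sum_ones]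
      have : R.filter (fun i => z ≤ a + i + 1 ∧ a + i + 1 < z + u) = Finset.Ico (z - a - 1) (z - a - 1 + u) := by
        ext i
        simp only [R, Finset.mem_filter, Finset.mem_range, Finset.mem_Ico]
        omega
      rw [this, Nat.card_Ico]
      omega
    rw [Finset.sum_congr rfl this]
    simp [mul_comm]
  have hsq : ∑ i ∈ R, c i ^ 2 ≤ u * Z.card + ∑ p ∈ Z.offDiag, (u - ((p.1 : ℤ) - p.2).natAbs) := by
    have h1 : ∀ i, c i ^ 2 = ∑ p ∈ Z ×ˢ Z, if (p.1 ≤ a + i + 1 ∧ a + i + 1 < p.1 + u) ∧ (p.2 ≤ a + i + 1 ∧ a + i + 1 < p.2 + u) then 1 else 0 := by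
      intro i
      rw [← Finset.sum_filter, ← Finset.card_eq_sum_ones, sq]
      simp only [c]
      rw [← Finset.card_product]
      congr 1
      ext p
      simp only [Finset.mem_product, Finset.mem_filter]
      tauto
    simp_rw [h1]
    rw [Finset.sum_comm]
    have h2 : ∀ p ∈ Z ×ˢ Z, (∑ i ∈ R, if (p.1 ≤ a + i + 1 ∧ a + i + 1 < p.1 + u) ∧ (p.2 ≤ a + i + 1 ∧ a + i + 1 < p.2 + u) then 1 else 0)
        ≤ u - ((p.1 : ℤ) - p.2).natAbs := by
      intro p hp
      rw [← Finset.sum_filter, ← Finset.card_eq_sum_ones]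
      have hsub : R.filter (fun i => (p.1 ≤ a + i + 1 ∧ a + i + 1 < p.1 + u) ∧ (p.2 ≤ a + i + 1 ∧ a + i + 1 < p.2 + u))
          ⊆ Finset.Ico (max p.1 p.2 - a - 1) (min p.1 p.2 - a - 1 + u) := by
        intro i hi
        simp only [R, Finset.mem_filter, Finset.mem_range] at hi
        rw [Finset.mem_Ico]
        have h3 := Finset.mem_Icc.mp (hZ (Finset.mem_product.mp hp).1)
        have h4 := Finset.mem_Icc.mp (hZ (Finset.mem_product.mp hp).2)
        omega
      refine (Finset.card_le_card hsub).trans ?_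
      rw [Nat.card_Ico]
      have h3 := Finset.mem_Icc.mp (hZ (Finset.mem_product.mp hp).1)
      have h4 := Finset.mem_Icc.mp (hZ (Finset.mem_product.mp hp).2)
      omega
    refine (Finset.sum_le_sum h2).trans ?_
    have h3 : Z ×ˢ Z = Z.diag ∪ Z.offDiag := (Finset.diag_union_offDiag Z).symm
    rw [h3, Finset.sum_union (Finset.disjoint_diag_offDiag Z)]
    gcongr
    rw [Finset.sum_diag]
    simp [mul_comm]
  have hcs := Finset.sum_mul_sq_le_sq_mul_sq R (fun _ => (1:ℕ)) c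
  simp only [one_mul, one_pow, Finset.sum_const, smul_eq_mul, mul_one] at hcs
  rw [hsum] at hcs
  refine hcs.trans ?_
  have : R.card = k + u - 1 := by simp [R]
  rw [this]
  exact Nat.mul_le_mul_left _ hsq

lemma sum_f (u : ℕ) : ∑ e ∈ (Finset.Ioo (-(u:ℤ)) u).erase 0, (u - e.natAbs) = u * (u - 1) := by
  classical
  have h1 : (Finset.Ioo (-(u:ℤ)) u).erase 0 = (Finset.range (u - 1)).image (fun d : ℕ => ((d : ℤ) + 1)) ∪
      (Finset.range (u - 1)).image (fun d : ℕ => (-((d : ℤ) + 1))) := by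
    ext e
    simp only [Finset.mem_erase, Finset.mem_Ioo, Finset.mem_union, Finset.mem_image, Finset.mem_range]
    constructor
    · rintro ⟨h0, h1, h2⟩
      rcases lt_or_gt_of_ne h0 with h | h
      · right; exact ⟨(-e - 1).toNat, by omega, by omega⟩
      · left; exact ⟨(e - 1).toNat, by omega, by omega⟩
    · rintro (⟨d, hd, rfl⟩ | ⟨d, hd, rfl⟩) <;> omega
  rw [h1, Finset.sum_union, Finset.sum_image, Finset.sum_image]
  · have h2 : ∀ d ∈ Finset.range (u - 1), u - ((d:ℤ) + 1).natAbs = u - 1 - d := by intro d hd; omega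
    have h3 : ∀ d ∈ Finset.range (u - 1), u - (-((d:ℤ) + 1)).natAbs = u - 1 - d := by intro d hd; omega
    rw [Finset.sum_congr rfl h2, Finset.sum_congr rfl h3]
    have h4 : ∑ d ∈ Finset.range (u - 1), (u - 1 - d) = ∑ d ∈ Finset.range u, d := by
      rcases u with _ | v
      · simp
      · simp only [Nat.add_sub_cancel]
        rw [Finset.sum_range_succ' (fun d => d) v]
        simp only [add_zero]
        rw [← Finset.sum_range_reflect (fun d => d + 1) v]
        refine Finset.sum_congr rfl fun d hd => ?_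
        have := Finset.mem_range.mp hd
        omega
    rw [h4]
    have := Finset.sum_range_id_mul_two u
    omega
  · intro a _ b _ hab
    simp only at hab
    omega
  · intro a _ b _ hab
    simp only at hab
    omega
  · rw [Finset.disjoint_left]
    intro e h2 h3
    simp only [Finset.mem_image, Finset.mem_range] at h2 h3
    obtain ⟨d, _, rfl⟩ := h2
    obtain ⟨d', _, h⟩ := h3
    omega

/-- The structure at the two ends: two sets of size `t`, in `[1,k]` and in `[N+1,N+k]`, inside one Sidon set. -/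
lemma ends {N k : ℕ} (hN : k ≤ N) : ∃ A X Y : Finset ℕ, IsSidon (A : Set ℕ) ∧ X ⊆ A ∧ Y ⊆ A ∧
    X ⊆ Finset.Icc (0 + 1) (0 + k) ∧ Y ⊆ Finset.Icc (N + 1) (N + k) ∧ Disjoint X Y ∧
    X.card = F (N + k) - F N ∧ Y.card = F (N + k) - F N := by
  classical
  obtain ⟨A, hA1, hA2, hA3⟩ := exists_max (N + k)
  have hX : F (N + k) - F N ≤ (A.filter (fun x => x ≤ k)).card := by
    have h1 : (A.filter (fun x => ¬ x ≤ k)).card ≤ F N := by
      refine card_le_F_shift (k := k) ?_ (sidon_mono hA2 (Finset.filter_subset _ _))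
      intro x hx
      have h2 := Finset.mem_filter.mp hx
      have h3 := Finset.mem_Icc.mp (hA1 h2.1)
      rw [Finset.mem_Icc]
      omega
    have h2 := Finset.card_filter_add_card_filter_not (s := A) (fun x => x ≤ k)
    omega
  have hY : F (N + k) - F N ≤ (A.filter (fun x => ¬ x ≤ N)).card := by
    have h1 : (A.filter (fun x => x ≤ N)).card ≤ F N := by
      refine card_le_F ?_ (sidon_mono hA2 (Finset.filter_subset _ _))
      intro x hx
      have h2 := Finset.mem_filter.mp hx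
      have h3 := Finset.mem_Icc.mp (hA1 h2.1)
      rw [Finset.mem_Icc]
      omega
    have h2 := Finset.card_filter_add_card_filter_not (s := A) (fun x => x ≤ N)
    omega
  obtain ⟨X, hX1, hX2⟩ := Finset.exists_subset_card_eq hX
  obtain ⟨Y, hY1, hY2⟩ := Finset.exists_subset_card_eq hY
  refine ⟨A, X, Y, hA2, hX1.trans (Finset.filter_subset _ _), hY1.trans (Finset.filter_subset _ _), ?_, ?_, ?_, hX2, hY2⟩
  · intro x hx
    have h2 := Finset.mem_filter.mp (hX1 hx)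
    have h3 := Finset.mem_Icc.mp (hA1 h2.1)
    rw [Finset.mem_Icc]
    omega
  · intro x hx
    have h2 := Finset.mem_filter.mp (hY1 hx)
    have h3 := Finset.mem_Icc.mp (hA1 h2.1)
    rw [Finset.mem_Icc]
    omega
  · rw [Finset.disjoint_left]
    intro x hx hx'
    have h2 := Finset.mem_filter.mp (hX1 hx)
    have h3 := Finset.mem_filter.mp (hY1 hx')
    omega

/-- Sums over the differences of the two end sets. -/
lemma sum_ends {A X Y : Finset ℕ} (hA : IsSidon (A : Set ℕ)) (hX : X ⊆ A) (hY : Y ⊆ A) (hXY : Disjoint X Y)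
    (S : Finset ℤ) (f : ℤ → ℕ) (h : ∀ p ∈ X.offDiag ∪ Y.offDiag, f ((p.1 : ℤ) - p.2) ≠ 0 → ((p.1 : ℤ) - p.2) ∈ S) :
    ∑ p ∈ X.offDiag, f ((p.1 : ℤ) - p.2) + ∑ p ∈ Y.offDiag, f ((p.1 : ℤ) - p.2) ≤ ∑ e ∈ S, f e := by
  classical
  have hdis : Disjoint X.offDiag Y.offDiag := by
    rw [Finset.disjoint_left]
    rintro ⟨a, b⟩ h1 h2
    rw [Finset.mem_offDiag] at h1 h2
    exact (Finset.disjoint_left.mp hXY) h1.1 h2.1
  rw [← Finset.sum_union hdis]
  have hinj : Set.InjOn (fun p : ℕ × ℕ => (p.1 : ℤ) - p.2) ((X.offDiag ∪ Y.offDiag : Finset (ℕ × ℕ)) : Set (ℕ × ℕ)) := by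
    refine (diff_inj hA).mono ?_
    intro p hp
    rw [Finset.mem_coe, Finset.mem_union] at hp
    rw [Finset.mem_coe]
    rcases hp with hp | hp
    · exact Finset.offDiag_mono hX hp
    · exact Finset.offDiag_mono hY hp
  rw [← Finset.sum_image (f := f) (g := fun p : ℕ × ℕ => (p.1 : ℤ) - p.2) hinj]
  refine Finset.sum_le_sum_of_ne_zero ?_
  intro e he hf
  obtain ⟨p, hp, rfl⟩ := Finset.mem_image.mp he
  exact h p hp hf

theorem small {N k : ℕ} (hk : 1 ≤ k) (hN : k ≤ N) :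
    (F (N + k) - F N) * (F (N + k) - F N - 1) < k := by
  classical
  obtain ⟨A, X, Y, hA, hX, hY, hXI, hYI, hXY, hXc, hYc⟩ := ends hN
  have h1 := sum_ends hA hX hY hXY ((Finset.Ioo (-(k:ℤ)) k).erase 0) (fun _ => 1) ?_
  · simp only [Finset.sum_const, smul_eq_mul, mul_one, Finset.offDiag_card, hXc, hYc] at h1
    have h2 : ((Finset.Ioo (-(k:ℤ)) k).erase 0).card = 2 * k - 2 := by
      rw [Finset.card_erase_of_mem (by rw [Finset.mem_Ioo]; omega), Int.card_Ioo]
      omega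
    rw [h2] at h1
    generalize F (N + k) - F N = t at h1 ⊢
    have h3 : t * t - t = t * (t - 1) := by
      rw [Nat.mul_sub, mul_one]
    rw [h3] at h1
    omega
  · rintro ⟨a, b⟩ hp _
    rw [Finset.mem_union, Finset.mem_offDiag, Finset.mem_offDiag] at hp
    rw [Finset.mem_erase, Finset.mem_Ioo]
    simp only at hp ⊢
    rcases hp with hp | hp
    · have h3 := Finset.mem_Icc.mp (hXI hp.1)
      have h4 := Finset.mem_Icc.mp (hXI hp.2.1)
      omega
    · have h3 := Finset.mem_Icc.mp (hYI hp.1)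
      have h4 := Finset.mem_Icc.mp (hYI hp.2.1)
      omega

theorem windows {N k u : ℕ} (hN : k ≤ N) (hu : 1 ≤ u) :
    2 * u * (F (N + k) - F N) ^ 2 ≤ (k + u - 1) * (u - 1 + 2 * (F (N + k) - F N)) := by
  classical
  obtain ⟨A, X, Y, hA, hX, hY, hXI, hYI, hXY, hXc, hYc⟩ := ends hN
  set t := F (N + k) - F N with ht
  have h1 := sum_ends hA hX hY hXY ((Finset.Ioo (-(u:ℤ)) u).erase 0) (fun e => u - e.natAbs) ?_
  · rw [sum_f] at h1
    have h2 := window hXI hu
    have h3 := window hYI hu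
    rw [hXc] at h2
    rw [hYc] at h3
    have h4 : (u * t) ^ 2 + (u * t) ^ 2 ≤ (k + u - 1) * (u * t + u * t + u * (u - 1)) := by
      calc (u * t) ^ 2 + (u * t) ^ 2 ≤ _ := add_le_add h2 h3
        _ = (k + u - 1) * (u * t + u * t + (∑ p ∈ X.offDiag, (u - ((p.1 : ℤ) - p.2).natAbs) + ∑ p ∈ Y.offDiag, (u - ((p.1 : ℤ) - p.2).natAbs))) := by ring
        _ ≤ _ := by gcongr
    have h5 : u * (2 * u * t ^ 2) ≤ u * ((k + u - 1) * (u - 1 + 2 * t)) := by
      calc u * (2 * u * t ^ 2) = (u * t) ^ 2 + (u * t) ^ 2 := by ring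
        _ ≤ _ := h4
        _ = _ := by ring
    exact Nat.le_of_mul_le_mul_left h5 (by omega)
  · rintro ⟨a, b⟩ hp hne
    rw [Finset.mem_union, Finset.mem_offDiag, Finset.mem_offDiag] at hp
    rw [Finset.mem_erase, Finset.mem_Ioo]
    simp only at hp hne ⊢
    rcases hp with hp | hp <;> omega

theorem asymptotic {N k : ℕ} (hk : 1 ≤ k) (hN : k ≤ N) :
    (F (N + k) : ℝ) - F N ≤ Real.sqrt (k / 2) + (k : ℝ) ^ (1 / 4 : ℝ) + 1 := by
  set s : ℝ := (k : ℝ) ^ (1 / 4 : ℝ) with hs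
  have hk1 : (1 : ℝ) ≤ k := by exact_mod_cast hk
  have hs1 : 1 ≤ s := Real.one_le_rpow hk1 (by norm_num)
  have hs4 : s ^ 4 = k := by
    rw [hs, ← Real.rpow_natCast, ← Real.rpow_mul (by positivity)]
    norm_num
  have hsq : Real.sqrt (k / 2) = s ^ 2 / Real.sqrt 2 := by
    rw [← hs4, Real.sqrt_div (by positivity)]
    congr 1
    rw [show s ^ 4 = (s ^ 2) ^ 2 by ring, Real.sqrt_sq (by positivity)]
  set r : ℝ := Real.sqrt (k / 2) with hr
  have hr2 : r ^ 2 = s ^ 4 / 2 := by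
    rw [hr, Real.sq_sqrt (by positivity), hs4]
  have hr0 : 0 ≤ r := Real.sqrt_nonneg _
  have hrs : s ^ 2 ≤ 2 * r := by
    have : (s ^ 2) ^ 2 ≤ (2 * r) ^ 2 := by nlinarith [sq_nonneg (s ^ 2)]
    exact le_of_sq_le_sq this (by positivity) |>.trans (le_refl _)
  by_contra hcon
  push Not at hcon
  have hFF : (F N : ℝ) ≤ F (N + k) := by
    by_contra h
    push Not at h
    have : (0:ℝ) ≤ r + s + 1 := by positivity
    linarith
  have hFF' : F N ≤ F (N + k) := by exact_mod_cast hFF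
  set t : ℕ := F (N + k) - F N with ht
  have htr : (t : ℝ) = F (N + k) - F N := by rw [ht, Nat.cast_sub hFF']
  rw [← htr] at hcon
  -- the window length
  set u : ℕ := ⌈s ^ 3⌉₊ with hu
  have hs3 : 1 ≤ s ^ 3 := one_le_pow₀ hs1
  have hu1 : s ^ 3 ≤ u := Nat.le_ceil _
  have hu2 : (u : ℝ) < s ^ 3 + 1 := Nat.ceil_lt_add_one (by positivity)
  have hu0 : 1 ≤ u := by
    have : (1 : ℝ) ≤ u := hs3.trans hu1
    exact_mod_cast this
  have hw := windows (u := u) hN hu0
  rw [← ht] at hw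
  have hw' : 2 * (u : ℝ) * (t : ℝ) ^ 2 ≤ ((k : ℝ) + u - 1) * ((u : ℝ) - 1 + 2 * t) := by
    have : ((2 * u * t ^ 2 : ℕ) : ℝ) ≤ (((k + u - 1) * (u - 1 + 2 * t) : ℕ) : ℝ) := by exact_mod_cast hw
    rw [Nat.cast_mul, Nat.cast_mul, Nat.cast_mul, Nat.cast_pow, Nat.cast_add, Nat.cast_mul, Nat.cast_sub hu0,
      Nat.cast_sub (by omega : 1 ≤ k + u)] at this
    push_cast at this
    linarith
  rw [← hs4] at hw'
  -- bounds
  have h1 : s ^ 4 + u - 1 ≤ s ^ 4 + s ^ 3 := by linarith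
  have h2 : (u : ℝ) - 1 + 2 * t ≤ s ^ 3 + 2 * t := by linarith
  have h3 : 2 * s ^ 3 * (t : ℝ) ^ 2 ≤ (s ^ 4 + s ^ 3) * (s ^ 3 + 2 * t) := by
    calc 2 * s ^ 3 * (t : ℝ) ^ 2 ≤ 2 * (u : ℝ) * (t : ℝ) ^ 2 := by gcongr
      _ ≤ _ := hw'
      _ ≤ (s ^ 4 + s ^ 3) * (s ^ 3 + 2 * t) := by
        apply mul_le_mul h1 h2
        · have : (1:ℝ) ≤ u := by exact_mod_cast hu0
          have ht0 : (0:ℝ) ≤ t := Nat.cast_nonneg t
          linarith
        · positivity
  have h4 : 2 * (t : ℝ) ^ 2 ≤ (s + 1) * (s ^ 3 + 2 * t) := by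
    have h5 : s ^ 3 * (2 * (t : ℝ) ^ 2) ≤ s ^ 3 * ((s + 1) * (s ^ 3 + 2 * t)) := by
      calc s ^ 3 * (2 * (t : ℝ) ^ 2) = 2 * s ^ 3 * (t : ℝ) ^ 2 := by ring
        _ ≤ _ := h3
        _ = _ := by ring
    exact le_of_mul_le_mul_left h5 (by positivity)
  have hr1 : 0 < r := by nlinarith
  have h5 : (r + s + 1) * r < (t : ℝ) * (t - (s + 1)) := by
    apply mul_lt_mul'' hcon (by linarith) (by positivity) hr0
  nlinarith [mul_nonneg (sub_nonneg.mpr hrs) (by positivity : (0:ℝ) ≤ s)]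

end Pool.Agent.Helper51.Sid
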